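import Pool.Agent.U544.LI.Comb3
import Pool.Agent.U544.LI.Mom3

/-!
# Rational ordinates and the primes near the points `exp (2πbk)`

Let

`D(x) = (8/3) √x - ∑_n Λ(n) n^(-1/2) min(n/x, x/n)`,

a smoothed error term in the count of the prime powers near `x`. For a step `h > 0` consider its averages along the
geometric progressions of ratio `e^h`,

`C(h, u; K) = (1/K) ∑_{k=1}^K D(e^{u + hk})`,

and, for an ordinate `g` and a radius `r`, the twisted local averages

`T(g, r, h; K) = (1/K) ∑_{k=1}^K (1/r) ∫_{-r}^r D(e^{hk + v}) cos(gv) dv`.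

Let `Γ` be the set of the positive ordinates of the zeros of `ζ`, `Γ⁺` the part which comes from zeros on the critical
line, `m_γ` the multiplicities, and `S(X) = (1 / log X) ∫_1^X D(x)^2 dx/x`. We prove:

* under RH, for all `h > 0` and `u`, `C(h, u; K)` tends to the sum of the `4 m_γ cos(γu) / (1 + γ²)` over the
  `γ ∈ Γ⁺ ∩ (2π/h)ℤ`. For `h = 2πb`, `u = 0` this is the mass of the ordinates which are rational with a denominator
  dividing `b`: a rational ordinate is a bias in the primes near the points `e^{2πbk}`;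
* for every `h > 0`: RH holds and `Γ` contains no multiple of `2π/h` if and only if `S` is bounded and
  `limsup_K C(h, 0; K) ≤ 0`;
* RH holds and all ordinates are irrational if and only if `S` is bounded and `limsup_K C(2πb, 0; K) ≤ 0` for every
  `b ≥ 1`;
* for every ordinate `g ∈ Γ` (for instance `γ_1`, the question) and every sufficiently large `r`: RH holds and `g` is
  irrational if and only if `S` is bounded and `limsup_K T(g, r, 2πb; K) ≤ 2 / (1 + g²)` for every `b ≥ 1`; for every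
  single `h > 0`, RH holds and `g` is not a multiple of `2π/h` if and only if `S` is bounded and
  `limsup_K T(g, r, h; K) ≤ 2 / (1 + g²)`.

Proof. Under RH `D(e^u) = ∑_γ 4 m_γ cos(γu) / (1 + γ²) + o(1)`, absolutely convergent; the average of `cos(γ(u + hk))`
over `k` is `cos(γu)` if `γh ∈ 2πℤ` and `0` otherwise. All masses are positive. The twisted local average multiplies
the mass of `γ` by a factor which tends to `0` for `γ ≠ g` and to `1` for `γ = g` as `r → ∞`, so for large `r` the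
limit is larger than half the smallest possible mass of `g` if and only if `g ∈ (2π/h)ℤ`. `S` is bounded if and only
if RH holds (Landau's theorem and the positivity of the residues).
-/

set_option autoImplicit false

open Filter Topology
open scoped Nat

namespace Pool.Agent.Results.MP_19cf47_nt.RationalOrdinates

/-- `D(x) = (8/3) √x - ∑_n Λ(n) n^(-1/2) min(n/x, x/n)` -/
noncomputable def D (x : ℝ) : ℝ :=
  8 / 3 * √x - ∑' n : ℕ, ArithmeticFunction.vonMangoldt n / √n * min (n / x) (x / n)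

/-- `S(X) = (1 / log X) ∫_1^X D(x)^2 dx/x` -/
noncomputable def S (X : ℝ) : ℝ := (∫ x in (1:ℝ)..X, D x ^ 2 / x) / Real.log X

/-- `S` is bounded above for large `X` -/
def SBounded : Prop := ∃ B : ℝ, ∀ᶠ X in atTop, S X ≤ B

/-- `C(h, u; K) = (1/K) ∑_{k=1}^K D(e^{u + hk})` -/
noncomputable def C (h u : ℝ) (K : ℕ) : ℝ := (∑ k ∈ Finset.range K, D (Real.exp (u + h * (k + 1)))) / K

/-- `T(g, r, h; K) = (1/K) ∑_{k=1}^K (1/r) ∫_{-r}^r D(e^{hk + v}) cos(gv) dv` -/
noncomputable def T (g r h : ℝ) (K : ℕ) : ℝ :=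
  (∑ k ∈ Finset.range K, (∫ v in (-r)..r, D (Real.exp (h * (k + 1) + v)) * Real.cos (g * v)) / r) / K

/-- `Γ`, the set of the positive ordinates of the zeros of `ζ` -/
def Gamma : Set ℝ := {g | 0 < g ∧ ∃ β : ℝ, riemannZeta (β + g * Complex.I) = 0}

/-- `Γ⁺`, the positive ordinates of the zeros on the critical line -/
def Gam : Type := {g : ℝ // 0 < g ∧ riemannZeta (1 / 2 + g * Complex.I) = 0}

/-- `4 m_γ / (1 + γ²)` with the multiplicity `m_γ` of `1/2 + iγ` -/
noncomputable def mass (g : Gam) : ℝ :=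
  4 * analyticOrderNatAt riemannZeta (1 / 2 + g.1 * Complex.I) / (1 + g.1 ^ 2)

/-- `g` is an integral multiple of `2π/h` -/
def Multiple (h g : ℝ) : Prop := ∃ m : ℤ, g * h = 2 * Real.pi * m

open Pool.Agent.U544.LI

/-- under RH all ordinates come from zeros on the critical line -/
lemma gamma_on (h : RiemannHypothesis) {g : ℝ} (hg : g ∈ Gamma) : riemannZeta (1 / 2 + g * Complex.I) = 0 := by
  obtain ⟨h1, β, h2⟩ := hg
  have h3 := h (β + g * Complex.I) h2 (by
    rintro ⟨n, hn⟩
    have := congrArg Complex.im hn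
    simp at this
    exact h1.ne' this) (by
    intro h4
    have := congrArg Complex.im h4
    simp at this
    exact h1.ne' this)
  simp at h3
  have h4 : (β : ℂ) = 1 / 2 := by
    rw [h3]
    push_cast
    ring
  rwa [h4] at h2

lemma gam_mem (g : Gam) : g.1 ∈ Gamma := by
  refine ⟨g.2.1, 1 / 2, ?_⟩
  push_cast
  exact g.2.2

/-- irrationality in terms of progressions -/
lemma irr_iff (g : ℝ) : Irrational g ↔ ∀ b : ℕ, 0 < b → ¬Multiple (2 * Real.pi * b) g := by
  constructor
  · rintro h b hb ⟨m, hm⟩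
    have hb' : (b:ℝ) ≠ 0 := by exact_mod_cast hb.ne'
    have h3 : g = ((m / b : ℚ) : ℝ) := by
      push_cast
      rw [eq_div_iff hb']
      have h4 : 2 * Real.pi * (g * b) = 2 * Real.pi * m := by linarith
      exact mul_left_cancel₀ (by positivity) h4
    exact h ⟨_, h3.symm⟩
  · rintro h ⟨q, rfl⟩
    refine h q.den q.den_pos ⟨q.num, ?_⟩
    have h2 : (q : ℝ) * q.den = q.num := by exact_mod_cast Rat.mul_den_eq_num q
    linear_combination 2 * Real.pi * h2

/-- the data for `ζ` -/
lemma data : ∃ f : ℝ → ℝ, Continuous f ∧ (∀ u, D (Real.exp u) = f u) ∧ (RiemannHypothesis ↔ SBounded) ∧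
    (∀ g, 0 < mass g) ∧ Summable mass ∧ Countable Gam ∧
    (RiemannHypothesis → Tendsto (fun u => f u - CS mass (fun g : Gam => g.1) u) atTop (𝓝 0)) := by
  classical
  have h : LD (ff 1) (Lq 1) 1 := ld_q
  have hD : ∀ x, 0 < x → D x = Dd (Lq 1) 1 (Real.log x) := by
    intro x hx
    rw [Dd_log h.zero hx, D, mul_one]
    congr 1
    refine tsum_congr fun n => ?_
    rw [Lq_apply, if_pos (Subsingleton.elim _ _)]
    simp
  have hfz : ∀ z : ℂ, z ≠ 1 / 2 → (ff 1 z = 0 ↔ riemannZeta (1 / 2 + z) = 0) := by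
    intro z hz
    rw [ff_zeta z hz, mul_eq_zero]
    constructor
    · rintro (h1 | h1)
      · exact absurd (sub_eq_zero.1 h1) hz
      · exact h1
    · intro h1
      exact Or.inr h1
  have hRH : RiemannHypothesis ↔ RHf (ff 1) := by
    rw [rh_iff]
    constructor
    · intro h1 w hw hw2
      rw [abs_lt] at hw2
      have hwh : w ≠ 1 / 2 := by
        rintro rfl
        norm_num at hw2
      have := h1 (1 / 2 + w) (by simp; linarith) (by simp; linarith) ((hfz w hwh).1 hw)
      simp at this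
      linarith
    · intro h1 ρ h2 h3 h4
      have hwh : ρ - 1 / 2 ≠ 1 / 2 := by
        intro h5
        have : ρ = 1 := by linear_combination h5
        rw [this] at h3
        simp at h3
      have := h1 (ρ - 1 / 2) ((hfz _ hwh).2 (by rw [add_sub_cancel]; exact h4)) (by
        rw [abs_lt]
        constructor <;> simp <;> linarith)
      simp at this
      linarith
  have hmu0 : mu (ff 1) 0 = 0 := by
    rw [ord_eq h ff_zeta (by norm_num), add_zero, zeta_ord0]
  let π : Gam ≃ Gs (ff 1) :=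
    { toFun := fun g => ⟨g.1, g.2.1, (hfz _ (ne_half _)).2 g.2.2⟩
      invFun := fun g => ⟨g.1, g.2.1, (hfz _ (ne_half _)).1 g.2.2⟩
      left_inv := fun g => rfl
      right_inv := fun g => rfl }
  set b : Gam → ℝ := fun g => wt (ff 1) (π g) with hbw
  have hmb : mass = fun g => 2 * b g := by
    funext g
    have e : b g = (mu (ff 1) ((g.1:ℂ) * Complex.I) : ℝ) * (2 / (1 + g.1 ^ 2)) := rfl
    rw [e, ord_eq h ff_zeta (ne_half _)]
    unfold mass
    ring
  have hbp : ∀ g, 0 < b g := fun g => wt_pos h _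
  have hbs : Summable b := (wt_summ h).comp_injective π.injective
  have hbD : ∀ u, DD b (fun g => (π g).1) u = DD (wt (ff 1)) (fun g : Gs (ff 1) => g.1) u := by
    intro u
    unfold DD
    exact π.tsum_eq (fun g : Gs (ff 1) => 2 * wt (ff 1) g * Real.cos (g.1 * u))
  have hS : S = logMean fun x => (0 + D x) ^ (2 * 1) := by
    funext X
    unfold S logMean
    simp only [zero_add, mul_one]
  refine ⟨Dd (Lq 1) 1, Dd_cont h, fun u => ?_, ?_, fun g => ?_, ?_, ?_, fun hR => ?_⟩
  · rw [hD _ (Real.exp_pos u), Real.log_exp]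
  · rw [hRH]
    have h1 := ((crit_mom h (fun g => π g) b hbp hbs hbD hD).2 0 le_rfl 1 le_rfl).1
    rw [h1]
    unfold SBounded
    rw [hS]
  · rw [hmb]
    exact mul_pos two_pos (hbp g)
  · rw [hmb]
    exact hbs.mul_left 2
  · have h1 := hbs.countable_support
    have h2 : Function.support b = Set.univ := Set.eq_univ_of_forall fun g => (hbp g).ne'
    rw [h2] at h1
    exact Set.countable_univ_iff.1 h1
  · have h1 := asym h fun w hw => nonpos_of_rh h (hRH.1 hR) hw
    rw [hmu0] at h1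
    refine h1.congr fun u => ?_
    rw [← hbD, hmb, Nat.cast_zero, mul_zero, zero_add]
    rfl

/-- **Rational ordinates and the primes near the points `exp (2πbk)`.** -/
theorem result :
    (∀ h u : ℝ, Summable fun g : {g : Gam // Multiple h g.1} => mass g.1 * Real.cos (g.1.1 * u)) ∧
    (RiemannHypothesis → ∀ h u : ℝ, 0 < h → Tendsto (C h u) atTop
      (𝓝 (∑' g : {g : Gam // Multiple h g.1}, mass g.1 * Real.cos (g.1.1 * u)))) ∧
    (∀ h : ℝ, 0 < h → ((RiemannHypothesis ∧ ∀ g ∈ Gamma, ¬Multiple h g) ↔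
      (SBounded ∧ ∀ ε : ℝ, 0 < ε → ∀ᶠ K in atTop, C h 0 K < ε))) ∧
    ((RiemannHypothesis ∧ ∀ g ∈ Gamma, Irrational g) ↔
      (SBounded ∧ ∀ b : ℕ, 0 < b → ∀ ε : ℝ, 0 < ε → ∀ᶠ K in atTop, C (2 * Real.pi * b) 0 K < ε)) ∧
    (∀ g ∈ Gamma, ∃ R : ℝ, 0 < R ∧ ∀ r : ℝ, R ≤ r →
      (∀ h : ℝ, 0 < h → ((RiemannHypothesis ∧ ¬Multiple h g) ↔
        (SBounded ∧ ∀ ε : ℝ, 0 < ε → ∀ᶠ K in atTop, T g r h K < 2 / (1 + g ^ 2) + ε))) ∧
      ((RiemannHypothesis ∧ Irrational g) ↔ (SBounded ∧ ∀ b : ℕ, 0 < b → ∀ ε : ℝ, 0 < ε → ∀ᶠ K in atTop,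
        T g r (2 * Real.pi * b) K < 2 / (1 + g ^ 2) + ε))) := by
  classical
  obtain ⟨f, hfc, hfD, hS, hm0, hms, hcount, has⟩ := data
  have hma : Summable fun g => |mass g| := hms.congr fun g => (abs_of_pos (hm0 g)).symm
  have hsum : ∀ h u : ℝ, Summable fun g : {g : Gam // Multiple h g.1} => mass g.1 * Real.cos (g.1.1 * u) := by
    intro h u
    exact (CS_summ (γ := fun g : Gam => g.1) hma u).subtype {g : Gam | Multiple h g.1}
  have hlim : RiemannHypothesis → ∀ h u : ℝ, 0 < h → Tendsto (C h u) atTop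
      (𝓝 (∑' g : {g : Gam // Multiple h g.1}, mass g.1 * Real.cos (g.1.1 * u))) := by
    intro hR h u hh
    have h1 : Tendsto (fun v => f (u + v) - CS mass (fun g : Gam => g.1) (u + v)) atTop (𝓝 0) :=
      (has hR).comp (tendsto_atTop_add_const_left _ u tendsto_id)
    have h2 := comb_zero h1 hh
    have h3 := comb_shift (γ := fun g : Gam => g.1) hma h u
    have h4 := h2.add h3
    rw [zero_add] at h4
    have e : (∑' g : {g : Gam // Multiple h g.1}, mass g.1 * Real.cos (g.1.1 * u)) =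
        ∑' g : Gam, if InAP h g.1 then mass g * Real.cos (g.1 * u) else 0 := by
      have e1 := tsum_subtype {g : Gam | Multiple h g.1} (fun g => mass g * Real.cos (g.1 * u))
      refine e1.trans (tsum_congr fun g => ?_)
      rw [Set.indicator_apply]
      rfl
    rw [e]
    refine h4.congr fun K => ?_
    rw [← comb_add]
    unfold comb C
    congr 1
    refine Finset.sum_congr rfl fun k _ => ?_
    rw [hfD]
    ring
  have hmul : ∀ h : ℝ, 0 < h → ((RiemannHypothesis ∧ ∀ g ∈ Gamma, ¬Multiple h g) ↔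
      (SBounded ∧ ∀ ε : ℝ, 0 < ε → ∀ᶠ K in atTop, C h 0 K < ε)) := by
    intro h hh
    constructor
    · rintro ⟨hR, h1⟩
      refine ⟨hS.1 hR, fun ε hε => ?_⟩
      have h2 := hlim hR h 0 hh
      have : IsEmpty {g : Gam // Multiple h g.1} := ⟨fun g => h1 _ (gam_mem g.1) g.2⟩
      rw [tsum_empty] at h2
      exact h2.eventually_lt_const hε
    · rintro ⟨hB, h1⟩
      have hR := hS.2 hB
      refine ⟨hR, fun g hg hgm => ?_⟩
      have h2 := hlim hR h 0 hh
      have h3 : (∑' g : {g : Gam // Multiple h g.1}, mass g.1 * Real.cos (g.1.1 * 0)) ≤ 0 := by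
        refine le_of_forall_pos_le_add fun ε hε => ?_
        rw [zero_add]
        exact le_of_tendsto h2 ((h1 ε hε).mono fun K hK => hK.le)
      have h4 := (hsum h 0).le_tsum ⟨⟨g, hg.1, gamma_on hR hg⟩, hgm⟩ fun j _ => by
        rw [mul_zero, Real.cos_zero, mul_one]
        exact (hm0 _).le
      rw [mul_zero, Real.cos_zero, mul_one] at h4
      have h5 := hm0 ⟨g, hg.1, gamma_on hR hg⟩
      linarith
  have hcase : ∀ g ∈ Gamma, ∃ R : ℝ, 0 < R ∧ ∀ r : ℝ, R ≤ r →
      ∀ h : ℝ, 0 < h → ((RiemannHypothesis ∧ ¬Multiple h g) ↔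
        (SBounded ∧ ∀ ε : ℝ, 0 < ε → ∀ᶠ K in atTop, T g r h K < 2 / (1 + g ^ 2) + ε)) := by
    intro g hg
    have ht : 0 < 2 / (1 + g ^ 2) := by positivity
    obtain ⟨R, hR0, hRR⟩ := crit_one (c := mass) (γ := fun g : Gam => g.1) hm0 hms (fun g => g.2.1)
      (fun a b hab => Subtype.ext hab) hg.1 ht (fun i hi => by
        have h1 := hm0 i
        unfold mass at h1 ⊢
        rw [hi] at h1 ⊢
        have hpos : (0:ℝ) < 1 + g ^ 2 := by positivity
        have h2 : (0:ℝ) < analyticOrderNatAt riemannZeta (1 / 2 + g * Complex.I) := by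
          rw [lt_div_iff₀ hpos, zero_mul] at h1
          linarith
        have h3 : (1:ℝ) ≤ analyticOrderNatAt riemannZeta (1 / 2 + g * Complex.I) := by
          exact_mod_cast Nat.one_le_iff_ne_zero.2 (by
            intro h4
            rw [h4] at h2
            simp at h2)
        rw [← mul_div_assoc]
        refine div_le_div_of_nonneg_right ?_ hpos.le
        linarith)
    refine ⟨R, hR0, fun r hr h hh => ?_⟩
    have hT : ∀ K, T g r h K = comb (Tw g r f) h K := by
      intro K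
      unfold T comb Tw
      congr 1
      refine Finset.sum_congr rfl fun k _ => ?_
      congr 1
      refine intervalIntegral.integral_congr fun v _ => ?_
      show D (Real.exp (h * (k + 1) + v)) * Real.cos (g * v) = f (h * (k + 1) + v) * Real.cos (g * v)
      rw [hfD]
    simp only [hT]
    constructor
    · rintro ⟨hR, h1⟩
      exact ⟨hS.1 hR, (hRR r hr f hfc (has hR) ⟨⟨g, hg.1, gamma_on hR hg⟩, rfl⟩ h hh).1 h1⟩
    · rintro ⟨hB, h1⟩
      have hR := hS.2 hB
      exact ⟨hR, (hRR r hr f hfc (has hR) ⟨⟨g, hg.1, gamma_on hR hg⟩, rfl⟩ h hh).2 h1⟩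
  have hpb : ∀ b : ℕ, 0 < b → 0 < 2 * Real.pi * b := fun b hb => by
    have : (0:ℝ) < b := by exact_mod_cast hb
    positivity
  refine ⟨hsum, hlim, hmul, ?_, fun g hg => ?_⟩
  · constructor
    · rintro ⟨hR, h1⟩
      exact ⟨hS.1 hR, fun b hb => ((hmul _ (hpb b hb)).1 ⟨hR, fun g hg => (irr_iff g).1 (h1 g hg) b hb⟩).2⟩
    · rintro ⟨hB, h1⟩
      refine ⟨hS.2 hB, fun g hg => (irr_iff g).2 fun b hb => ?_⟩
      exact ((hmul _ (hpb b hb)).2 ⟨hB, h1 b hb⟩).2 g hg
  · obtain ⟨R, hR0, hRR⟩ := hcase g hg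
    refine ⟨R, hR0, fun r hr => ⟨hRR r hr, ?_⟩⟩
    constructor
    · rintro ⟨hR, h1⟩
      exact ⟨hS.1 hR, fun b hb => ((hRR r hr _ (hpb b hb)).1 ⟨hR, (irr_iff g).1 h1 b hb⟩).2⟩
    · rintro ⟨hB, h1⟩
      refine ⟨hS.2 hB, (irr_iff g).2 fun b hb => ?_⟩
      exact ((hRR r hr _ (hpb b hb)).2 ⟨hB, h1 b hb⟩).2

end Pool.Agent.Results.MP_19cf47_nt.RationalOrdinates
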