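import Pool.Agent.U544.LI.Comb4
import Pool.Agent.U544.LI.InhAlg

/-!
# Sums of at most `m` ordinates and the primes near the points `exp (2πbk)`

Let

`D(x) = (8/3) √x - ∑_n Λ(n) n^(-1/2) min(n/x, x/n)`,

a smoothed error term in the count of the prime powers near `x`, and consider its moments along the geometric
progressions of ratio `e^h`,

`P(c, m, h; K) = (1/K) ∑_{k=1}^K (c + D(e^{hk}))^m`.

Let `Γ⁺` be the set of the positive ordinates of the zeros of `ζ` on the critical line (under RH all ordinates), `m_γ`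
the multiplicities, `b_γ = 2 m_γ / (1 + γ²)`, and `S(X) = (1 / log X) ∫_1^X D(x)^2 dx/x`. A signed `k`-tuple is a choice
of `k` ordinates `γ_1, …, γ_k ∈ Γ⁺` (repetitions allowed) and of `k` signs; its value is `± γ_1 ± … ± γ_k`, its weight
`b_{γ_1} ⋯ b_{γ_k}`, and it cancels if every ordinate occurs in it as often with `+` as with `-`. Let `A_k(h)` be the
sum of the weights of the signed `k`-tuples whose value is an integral multiple of `2π/h`, `V_k` the sum over those
which cancel.

* The sums converge, `V_k ≤ A_k(h)`, with equality if and only if every signed `k`-tuple whose value is an integral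
  multiple of `2π/h` cancels.
* Under RH `P(c, m, h; K)` tends to `∑_{k ≤ m} binom(m, k) c^(m-k) A_k(h)` for all `h > 0`, `c` and `m`.
* For all `h > 0`, `c > 0` and `m`: RH holds and every signed tuple of at most `m` ordinates whose value is an integral
  multiple of `2π/h` cancels if and only if `S` is bounded and `limsup_K P(c, m, h; K) ≤ ∑ binom(m, k) c^(m-k) V_k`.
* For all `c > 0` and `m`: RH holds and the value of every signed tuple of at most `m` ordinates which does not cancel
  is irrational if and only if `S` is bounded and `limsup_K P(c, m, 2πb; K) ≤ ∑ binom(m, k) c^(m-k) V_k` for all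
  `b ≥ 1`. So each moment of the primes near the points `e^{2πbk}` sees exactly the rational sums of at most `m`
  ordinates; the first one sees the rational ordinates.
* RH holds and `1` and the elements of `Γ⁺` are linearly independent over `ℚ` if and only if `S` is bounded and this
  is true for `c = 1` and all `m`.
-/

set_option autoImplicit false

open Filter Topology
open scoped Nat

namespace Pool.Agent.Results.MP_19cf47_nt.SumsOfOrdinates

/-- `D(x) = (8/3) √x - ∑_n Λ(n) n^(-1/2) min(n/x, x/n)` -/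
noncomputable def D (x : ℝ) : ℝ :=
  8 / 3 * √x - ∑' n : ℕ, ArithmeticFunction.vonMangoldt n / √n * min (n / x) (x / n)

/-- `S(X) = (1 / log X) ∫_1^X D(x)^2 dx/x` -/
noncomputable def S (X : ℝ) : ℝ := (∫ x in (1:ℝ)..X, D x ^ 2 / x) / Real.log X

/-- `S` is bounded above for large `X` -/
def SBounded : Prop := ∃ B : ℝ, ∀ᶠ X in atTop, S X ≤ B

/-- `P(c, m, h; K) = (1/K) ∑_{k=1}^K (c + D(e^{hk}))^m` -/
noncomputable def P (c : ℝ) (m : ℕ) (h : ℝ) (K : ℕ) : ℝ :=
  (∑ k ∈ Finset.range K, (c + D (Real.exp (h * (k + 1)))) ^ m) / K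

/-- `Γ⁺`, the set of the positive ordinates of the zeros on the critical line -/
def Gam : Type := {g : ℝ // 0 < g ∧ riemannZeta (1 / 2 + g * Complex.I) = 0}

/-- `b_γ = 2 m_γ / (1 + γ²)` with the multiplicity `m_γ` of `1/2 + iγ` -/
noncomputable def b (g : Gam) : ℝ :=
  2 * analyticOrderNatAt riemannZeta (1 / 2 + g.1 * Complex.I) / (1 + g.1 ^ 2)

/-- the value `± γ_1 ± … ± γ_k` of a signed `k`-tuple -/
noncomputable def value {k : ℕ} (t : Fin k → Gam × ℤˣ) : ℝ := ∑ j, (((t j).2 : ℤ) : ℝ) * (t j).1.1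

open Classical in
/-- every ordinate occurs as often with the sign `+` as with the sign `-` -/
def Cancels {k : ℕ} (t : Fin k → Gam × ℤˣ) : Prop :=
  ∀ g : Gam, ∑ j ∈ Finset.univ.filter (fun j => (t j).1 = g), ((t j).2 : ℤ) = 0

/-- the weight `b_{γ_1} ⋯ b_{γ_k}` -/
noncomputable def weight {k : ℕ} (t : Fin k → Gam × ℤˣ) : ℝ := ∏ j, b (t j).1

/-- `g` is an integral multiple of `2π/h` -/
def Multiple (h g : ℝ) : Prop := ∃ m : ℤ, g * h = 2 * Real.pi * m

/-- `A_k(h)`: the sum of the weights of the signed `k`-tuples whose value is an integral multiple of `2π/h` -/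
noncomputable def A (h : ℝ) (k : ℕ) : ℝ := ∑' t : {t : Fin k → Gam × ℤˣ // Multiple h (value t)}, weight t.1

/-- `V_k`: the sum of the weights of the signed `k`-tuples which cancel -/
noncomputable def V (k : ℕ) : ℝ := ∑' t : {t : Fin k → Gam × ℤˣ // Cancels t}, weight t.1

/-- every signed `k`-tuple whose value is an integral multiple of `2π/h` cancels -/
def NoMultiple (h : ℝ) (k : ℕ) : Prop := ∀ t : Fin k → Gam × ℤˣ, Multiple h (value t) → Cancels t

/-- the value of every signed `k`-tuple which does not cancel is irrational -/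
def AllIrrational (k : ℕ) : Prop := ∀ t : Fin k → Gam × ℤˣ, ¬Cancels t → Irrational (value t)

/-- `∑_{k ≤ m} binom(m, k) c^(m-k) W_k` -/
noncomputable def Binom (m : ℕ) (c : ℝ) (W : ℕ → ℝ) : ℝ :=
  ∑ k ∈ Finset.range (m + 1), W k * c ^ (m - k) * (m.choose k : ℝ)

open Pool.Agent.U544.LI

/-- irrationality in terms of progressions -/
lemma irr_iff (g : ℝ) : Irrational g ↔ ∀ b : ℕ, 0 < b → ¬Multiple (2 * Real.pi * b) g := by
  constructor
  · rintro h b hb ⟨m, hm⟩
    have hb' : (b:ℝ) ≠ 0 := by exact_mod_cast hb.ne'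
    have h3 : g = ((m / b : ℚ) : ℝ) := by
      push_cast
      rw [eq_div_iff hb']
      have h4 : 2 * Real.pi * (g * b) = 2 * Real.pi * m := by linarith
      exact mul_left_cancel₀ (by positivity) h4
    exact h ⟨_, h3.symm⟩
  · rintro h ⟨q, rfl⟩
    refine h q.den q.den_pos ⟨q.num, ?_⟩
    have h2 : (q : ℝ) * q.den = q.num := by exact_mod_cast Rat.mul_den_eq_num q
    linear_combination 2 * Real.pi * h2

/-- linear independence with the constant -/
lemma one_iff {ι : Type*} (γ : ι → ℝ) : LinearIndependent ℚ (with1 γ) ↔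
    ∀ (k : ℕ) (t : Fin k → ι × ℤˣ), fm t ≠ 0 → Irrational (fr γ t) := by
  classical
  have key : ∀ (n : ι →₀ ℤ) (x : ℤ), ((Finsupp.mapDomain Sum.inl n + Finsupp.single (Sum.inr ()) x).sum
      fun i k => (k : ℝ) * with1 γ i) = val γ n + x := by
    intro n x
    rw [Finsupp.sum_add_index' (fun i => by simp) (fun i a b => by push_cast; ring),
      Finsupp.sum_mapDomain_index (fun i => by simp) (fun i a b => by push_cast; ring),
      Finsupp.sum_single_index (by simp)]
    unfold val with1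
    simp only [Sum.elim_inl, Sum.elim_inr, mul_one]
  have hsplit : ∀ l : ι ⊕ Unit →₀ ℤ, l = Finsupp.mapDomain Sum.inl (l.comapDomain Sum.inl Sum.inl_injective.injOn) +
      Finsupp.single (Sum.inr ()) (l (Sum.inr ())) := by
    intro l
    ext p
    rcases p with i | u
    · rw [Finsupp.add_apply, Finsupp.mapDomain_apply Sum.inl_injective, Finsupp.comapDomain_apply,
        Finsupp.single_eq_of_ne (by simp), add_zero]
    · rw [Finsupp.add_apply, Finsupp.mapDomain_of_notMem_range _ _ (by simp), zero_add, Finsupp.single_eq_same]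
  rw [linInd_sum]
  constructor
  · rintro h k t ht ⟨q, hq⟩
    apply ht
    have h1 := h (Finsupp.mapDomain Sum.inl ((q.den : ℤ) • fm t) + Finsupp.single (Sum.inr ()) (-q.num)) (by
      rw [key]
      have e : val γ ((q.den : ℤ) • fm t) = (q.den : ℝ) * val γ (fm t) := by
        unfold val
        rw [Finsupp.sum_smul_index (fun i => by simp), Finsupp.mul_sum]
        refine Finsupp.sum_congr fun i _ => ?_
        push_cast
        ring
      rw [e, val_fm, ← hq]
      have h2 : (q.den : ℝ) * q = q.num := by exact_mod_cast Rat.den_mul_eq_num q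
      rw [h2]
      push_cast
      ring)
    ext i
    have h2 := congrArg (fun l => l (Sum.inl i)) h1
    simp only [Finsupp.add_apply, Finsupp.mapDomain_apply Sum.inl_injective, Finsupp.coe_zero, Pi.zero_apply] at h2
    rw [Finsupp.single_eq_of_ne (by simp), add_zero, Finsupp.smul_apply, smul_eq_mul, mul_eq_zero] at h2
    rcases h2 with h2 | h2
    · exact absurd h2 (by exact_mod_cast q.den_nz)
    · exact h2
  · intro h l hl
    rw [hsplit l, key] at hl
    set n := l.comapDomain Sum.inl Sum.inl_injective.injOn with hn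
    obtain ⟨k, t, ht⟩ := exists_tup n
    have hn0 : n = 0 := by
      by_contra hne
      have h1 := h k t (by rw [ht]; exact hne)
      rw [← val_fm, ht] at h1
      exact h1 ⟨-(l (Sum.inr ()) : ℤ), by
        push_cast
        linarith⟩
    rw [hn0, val_zero, zero_add] at hl
    have hl0 : l (Sum.inr ()) = 0 := by exact_mod_cast hl
    rw [hsplit l, ← hn, hn0, hl0]
    simp

/-- the data for `ζ` -/
lemma data : ∃ f : ℝ → ℝ, Continuous f ∧ (∀ u, D (Real.exp u) = f u) ∧ (RiemannHypothesis ↔ SBounded) ∧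
    (∀ g, 0 < b g) ∧ Summable b ∧
    (RiemannHypothesis → Tendsto (fun u => f u - DD b (fun g : Gam => g.1) u) atTop (𝓝 0)) := by
  classical
  have h : LD (ff 1) (Lq 1) 1 := ld_q
  have hD : ∀ x, 0 < x → D x = Dd (Lq 1) 1 (Real.log x) := by
    intro x hx
    rw [Dd_log h.zero hx, D, mul_one]
    congr 1
    refine tsum_congr fun n => ?_
    rw [Lq_apply, if_pos (Subsingleton.elim _ _)]
    simp
  have hfz : ∀ z : ℂ, z ≠ 1 / 2 → (ff 1 z = 0 ↔ riemannZeta (1 / 2 + z) = 0) := by
    intro z hz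
    rw [ff_zeta z hz, mul_eq_zero]
    constructor
    · rintro (h1 | h1)
      · exact absurd (sub_eq_zero.1 h1) hz
      · exact h1
    · intro h1
      exact Or.inr h1
  have hRH : RiemannHypothesis ↔ RHf (ff 1) := by
    rw [rh_iff]
    constructor
    · intro h1 w hw hw2
      rw [abs_lt] at hw2
      have hwh : w ≠ 1 / 2 := by
        rintro rfl
        norm_num at hw2
      have := h1 (1 / 2 + w) (by simp; linarith) (by simp; linarith) ((hfz w hwh).1 hw)
      simp at this
      linarith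
    · intro h1 ρ h2 h3 h4
      have hwh : ρ - 1 / 2 ≠ 1 / 2 := by
        intro h5
        have : ρ = 1 := by linear_combination h5
        rw [this] at h3
        simp at h3
      have := h1 (ρ - 1 / 2) ((hfz _ hwh).2 (by rw [add_sub_cancel]; exact h4)) (by
        rw [abs_lt]
        constructor <;> simp <;> linarith)
      simp at this
      linarith
  have hmu0 : mu (ff 1) 0 = 0 := by
    rw [ord_eq h ff_zeta (by norm_num), add_zero, zeta_ord0]
  let π : Gam ≃ Gs (ff 1) :=
    { toFun := fun g => ⟨g.1, g.2.1, (hfz _ (ne_half _)).2 g.2.2⟩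
      invFun := fun g => ⟨g.1, g.2.1, (hfz _ (ne_half _)).1 g.2.2⟩
      left_inv := fun g => rfl
      right_inv := fun g => rfl }
  have hbw : b = fun g => wt (ff 1) (π g) := by
    funext g
    have e : wt (ff 1) (π g) = (mu (ff 1) ((g.1:ℂ) * Complex.I) : ℝ) * (2 / (1 + g.1 ^ 2)) := rfl
    rw [e, ord_eq h ff_zeta (ne_half _)]
    unfold b
    ring
  have hbp : ∀ g, 0 < b g := fun g => by rw [hbw]; exact wt_pos h _
  have hbs : Summable b := by
    rw [hbw]
    exact (wt_summ h).comp_injective π.injective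
  have hbD : ∀ u, DD b (fun g => (π g).1) u = DD (wt (ff 1)) (fun g : Gs (ff 1) => g.1) u := by
    intro u
    rw [hbw]
    unfold DD
    exact π.tsum_eq (fun g : Gs (ff 1) => 2 * wt (ff 1) g * Real.cos (g.1 * u))
  have hS : S = logMean fun x => (0 + D x) ^ (2 * 1) := by
    funext X
    unfold S logMean
    simp only [zero_add, mul_one]
  refine ⟨Dd (Lq 1) 1, Dd_cont h, fun u => ?_, ?_, hbp, hbs, fun hR => ?_⟩
  · rw [hD _ (Real.exp_pos u), Real.log_exp]
  · rw [hRH]
    have h1 := ((crit_mom h (fun g => π g) b hbp hbs hbD hD).2 0 le_rfl 1 le_rfl).1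
    rw [h1]
    unfold SBounded
    rw [hS]
  · have h1 := asym h fun w hw => nonpos_of_rh h (hRH.1 hR) hw
    rw [hmu0] at h1
    refine h1.congr fun u => ?_
    rw [← hbD, Nat.cast_zero, mul_zero, zero_add]
    rfl

/-- **Sums of at most `m` ordinates and the primes near the points `exp (2πbk)`.** -/
theorem result :
    (∀ k, Summable fun t : Fin k → Gam × ℤˣ => weight t) ∧
    (∀ (h : ℝ) (k : ℕ), V k ≤ A h k ∧ (A h k = V k ↔ NoMultiple h k)) ∧
    (RiemannHypothesis → ∀ (c : ℝ) (m : ℕ) (h : ℝ), 0 < h → Tendsto (P c m h) atTop (𝓝 (Binom m c (A h)))) ∧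
    (∀ (c : ℝ) (m : ℕ) (h : ℝ), 0 < c → 0 < h → ((RiemannHypothesis ∧ ∀ k ≤ m, NoMultiple h k) ↔
      (SBounded ∧ ∀ ε : ℝ, 0 < ε → ∀ᶠ K in atTop, P c m h K < Binom m c V + ε))) ∧
    (∀ (c : ℝ) (m : ℕ), 0 < c → ((RiemannHypothesis ∧ ∀ k ≤ m, AllIrrational k) ↔
      (SBounded ∧ ∀ b : ℕ, 0 < b → ∀ ε : ℝ, 0 < ε → ∀ᶠ K in atTop,
        P c m (2 * Real.pi * b) K < Binom m c V + ε))) ∧
    ((RiemannHypothesis ∧ LinearIndependent ℚ (Sum.elim (fun g : Gam => g.1) fun _ : Unit => (1:ℝ))) ↔
      (SBounded ∧ ∀ (m b : ℕ), 0 < b → ∀ ε : ℝ, 0 < ε → ∀ᶠ K in atTop,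
        P 1 m (2 * Real.pi * b) K < Binom m 1 V + ε)) := by
  classical
  obtain ⟨f, hfc, hfD, hS, hb0, hbs, has⟩ := data
  have hA : ∀ h, A h = AA b (fun g : Gam => g.1) h := fun h => rfl
  have hcan : ∀ {k : ℕ} (t : Fin k → Gam × ℤˣ), Cancels t ↔ fm t = 0 := fun t => (fm_zero_iff t).symm
  have hV : V = VV b := by
    funext k
    unfold V VV
    exact (Equiv.subtypeEquivRight fun t => hcan t).tsum_eq
      (fun t : {t : Fin k → Gam × ℤˣ // fm t = 0} => wp b t.1)
  have hNM : ∀ h k, NoMultiple h k ↔ IndAP (fun g : Gam => g.1) h k := fun h k =>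
    forall_congr' fun t => imp_congr_right fun _ => hcan t
  have hP : ∀ (c : ℝ) (m : ℕ) (h : ℝ), P c m h = comb (fun u => (c + f u) ^ m) h := by
    intro c m h
    funext K
    unfold P comb
    simp only [hfD]
  have hlim : RiemannHypothesis → ∀ (c : ℝ) (m : ℕ) (h : ℝ), 0 < h →
      Tendsto (P c m h) atTop (𝓝 (Binom m c (A h))) := by
    intro hR c m h hh
    rw [hP, hA]
    exact comb_moment hb0 hbs (has hR) c m hh
  have hcrit : ∀ (c : ℝ) (m : ℕ) (h : ℝ), 0 < c → 0 < h → ((RiemannHypothesis ∧ ∀ k ≤ m, NoMultiple h k) ↔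
      (SBounded ∧ ∀ ε : ℝ, 0 < ε → ∀ᶠ K in atTop, P c m h K < Binom m c V + ε)) := by
    intro c m h hc hh
    rw [hS]
    refine and_congr_right fun hB => ?_
    have h1 := crit_AP hb0 hbs (has (hS.2 hB)) hc m hh
    rw [hP, hV]
    simp only [hNM]
    exact h1
  have hpb : ∀ b : ℕ, 0 < b → 0 < 2 * Real.pi * b := fun b hb => by
    have : (0:ℝ) < b := by exact_mod_cast hb
    positivity
  have hirr : ∀ k, AllIrrational k ↔ ∀ b : ℕ, 0 < b → NoMultiple (2 * Real.pi * b) k := by
    intro k
    constructor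
    · intro h b hb t ht
      by_contra hcon
      exact (irr_iff _).1 (h t hcon) b hb ht
    · intro h t ht
      rw [irr_iff]
      intro b hb hm
      exact ht (h b hb t hm)
  have hall : ∀ (c : ℝ) (m : ℕ), 0 < c → ((RiemannHypothesis ∧ ∀ k ≤ m, AllIrrational k) ↔
      (SBounded ∧ ∀ b : ℕ, 0 < b → ∀ ε : ℝ, 0 < ε → ∀ᶠ K in atTop,
        P c m (2 * Real.pi * b) K < Binom m c V + ε)) := by
    intro c m hc
    constructor
    · rintro ⟨hR, h1⟩
      refine ⟨hS.1 hR, fun b hb => ((hcrit c m _ hc (hpb b hb)).1 ⟨hR, fun k hk => ?_⟩).2⟩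
      exact (hirr k).1 (h1 k hk) b hb
    · rintro ⟨hB, h1⟩
      refine ⟨hS.2 hB, fun k hk => (hirr k).2 fun b hb => ?_⟩
      exact ((hcrit c m _ hc (hpb b hb)).2 ⟨hB, h1 b hb⟩).2 k hk
  refine ⟨fun k => (DD_pow (γ := fun _ => 0) hb0 hbs k 0).1, fun h k => ?_, hlim, hcrit, hall, ?_⟩
  · rw [hNM, hV, hA]
    exact VV_le_AP hb0 hbs h k
  · have h1 := one_iff (fun g : Gam => g.1)
    have h2 : LinearIndependent ℚ (Sum.elim (fun g : Gam => g.1) fun _ : Unit => (1:ℝ)) ↔
        ∀ k, AllIrrational k := by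
      refine Iff.trans h1 (forall_congr' fun k => forall_congr' fun t => ?_)
      rw [hcan]
      rfl
    rw [h2]
    constructor
    · rintro ⟨hR, h3⟩
      exact ⟨hS.1 hR, fun m => ((hall 1 m one_pos).1 ⟨hR, fun k _ => h3 k⟩).2⟩
    · rintro ⟨hB, h3⟩
      exact ⟨hS.2 hB, fun k => ((hall 1 k one_pos).2 ⟨hB, h3 k⟩).2 k le_rfl⟩

end Pool.Agent.Results.MP_19cf47_nt.SumsOfOrdinates
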